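import Pool.Agent.KO.M.Keym
import Pool.Agent.KO.A.Defs

/-!
# Project KO, block M: `keym` for normal forms
-/

set_option autoImplicit false

namespace Pool.Agent.KO

open MvPolynomial

variable {k : Type} [Field k]

namespace M

theorem msWt_eq (a : Fin 4 →₀ ℕ) : U.msWt wAff a = Finsupp.weight wAff a := by
  unfold U.msWt
  rw [Finsupp.weight_apply, Finsupp.sum_fintype _ _ (fun i => by simp)]
  simp [smul_eq_mul]

theorem msB_iff {P : MvPolynomial (Fin 4) k} {m : ℕ} :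
    U.MsB wAff P m ↔ ∀ a ∈ P.support, Finsupp.weight wAff a ≤ m := by
  constructor
  · rintro h a ha
    rw [mem_support_iff] at ha
    have hP : P ≠ 0 := by
      rintro rfl
      exact ha (coeff_zero a)
    have h1 := U.msD_ge wAff ha
    have h2 := h.resolve_left hP
    rw [← msWt_eq]
    exact_mod_cast h1.trans (by exact_mod_cast h2)
  · intro h
    right
    have h1 : U.msD wAff P ≤ m := by
      refine U.msD_le wAff fun s hs => ?_
      rw [msWt_eq]
      exact h s (mem_support_iff.2 hs)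
    exact_mod_cast h1

theorem wtd_le_iff {P : MvPolynomial (Fin 4) k} {m : ℕ} :
    weightedTotalDegree wAff P ≤ m ↔ ∀ a ∈ P.support, Finsupp.weight wAff a ≤ m := by
  unfold weightedTotalDegree
  exact Finset.sup_le_iff

/-- `- (x ^ 3 + b)` -/
noncomputable def cc (t : k) : MvPolynomial (Fin 4) k := X 3 ^ 2 - gAff t

theorem cc_eq (t : k) : cc t = -(X 2 ^ 3 + (C t * X 1 ^ 11 + X 0 * X 1 ^ 10 + X 0 ^ 12 * X 1 - 1 -
    X 1 ^ 9)) := by
  unfold cc gAff
  ring

theorem cc_deg (t : k) : U.MsB wAff (cc t) 66 := by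
  have h0 : wAff 0 = 5 := rfl
  have h1 : wAff 1 = 6 := rfl
  have h2 : wAff 2 = 22 := rfl
  have hX : ∀ (i : Fin 4) (n : ℕ) (N : ℤ), (n : ℤ) * wAff i ≤ N →
      U.MsB wAff (X i ^ n : MvPolynomial (Fin 4) k) N := fun i n N h =>
    (U.MsB.X_pow wAff i n).mono h
  rw [cc_eq, sub_eq_add_neg, sub_eq_add_neg]
  refine U.MsB.neg (U.MsB.add (hX 2 3 66 (by norm_num [h2])) (U.MsB.add (U.MsB.add (U.MsB.add
    (U.MsB.add ?_ ?_) ?_) (U.MsB.neg ?_)) (U.MsB.neg ?_)))
  · exact ((U.MsB.const wAff t).mul (hX 1 11 66 (by norm_num [h1]))).mono (by norm_num)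
  · have h3 := (hX 0 1 5 (by norm_num [h0])).mul (hX 1 10 60 (by norm_num [h1]))
    rw [pow_one] at h3
    exact h3.mono (by norm_num)
  · have h3 := (hX 0 12 60 (by norm_num [h0])).mul (hX 1 1 6 (by norm_num [h1]))
    rw [pow_one] at h3
    exact h3.mono (by norm_num)
  · have h3 := (U.MsB.const wAff (1 : k)).mono (show (0 : ℤ) ≤ 66 by norm_num)
    rwa [map_one] at h3
  · exact hX 1 9 66 (by norm_num [h1])

theorem cc_free (t : k) : degreeOf 3 (cc t) = 0 := by
  rw [cc_eq, degreeOf_neg]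
  have hX : ∀ (i : Fin 4) (n : ℕ), i ≠ 3 → degreeOf 3 (X i ^ n : MvPolynomial (Fin 4) k) = 0 :=
    fun i n hi => degreeOf_X_pow_of_ne n hi.symm
  have hm : ∀ f g : MvPolynomial (Fin 4) k, degreeOf 3 f = 0 → degreeOf 3 g = 0 →
      degreeOf 3 (f * g) = 0 := fun f g hf hg => by
    have := degreeOf_mul_le 3 f g
    omega
  have ha : ∀ f g : MvPolynomial (Fin 4) k, degreeOf 3 f = 0 → degreeOf 3 g = 0 →
      degreeOf 3 (f + g) = 0 := fun f g hf hg => by
    have := degreeOf_add_le 3 f g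
    omega
  have hn : ∀ f : MvPolynomial (Fin 4) k, degreeOf 3 f = 0 → degreeOf 3 (-f) = 0 := fun f hf => by
    rw [degreeOf_neg, hf]
  have h1 : ∀ i : Fin 4, i ≠ 3 → degreeOf 3 (X i : MvPolynomial (Fin 4) k) = 0 := fun i hi => by
    have := hX i 1 hi
    rwa [pow_one] at this
  have hone : degreeOf 3 (1 : MvPolynomial (Fin 4) k) = 0 := by
    rw [← map_one C, degreeOf_C]
  rw [sub_eq_add_neg, sub_eq_add_neg]
  refine ha _ _ (hX 2 3 (by decide)) (ha _ _ (ha _ _ (ha _ _ (ha _ _ ?_ ?_) ?_) (hn _ hone))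
    (hn _ (hX 1 9 (by decide))))
  · exact hm _ _ (degreeOf_C _ _) (hX 1 11 (by decide))
  · exact hm _ _ (h1 0 (by decide)) (hX 1 10 (by decide))
  · exact hm _ _ (hX 0 12 (by decide)) (h1 1 (by decide))

theorem nf_iff {P : MvPolynomial (Fin 4) k} : NF P ↔ degreeOf 3 P ≤ 1 := by
  unfold NF
  rw [degreeOf_eq_sup, Finset.sup_le_iff]

/-- Normal forms, with degrees. -/
theorem exists_nf_deg (t : k) {m : ℕ} (P : MvPolynomial (Fin 4) k)
    (hP : ∀ a ∈ P.support, Finsupp.weight wAff a ≤ m) :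
    ∃ P', NF P' ∧ (∀ a ∈ P'.support, Finsupp.weight wAff a ≤ m) ∧ gAff t ∣ P - P' := by
  classical
  -- monomials
  have hmon : ∀ (a : Fin 4 →₀ ℕ) (c : k), Finsupp.weight wAff a ≤ m →
      ∃ P', NF P' ∧ U.MsB wAff P' m ∧ gAff t ∣ monomial a c - P' := by
    intro a c ha
    set Q : MvPolynomial (Fin 4) k := C c * (X 0 ^ a 0 * X 1 ^ a 1 * X 2 ^ a 2) with hQ
    have hmono : monomial a c = Q * X 3 ^ a 3 := by
      rw [monomial_eq, Finsupp.prod_fintype _ _ (fun _ => pow_zero _), Fin.prod_univ_four, hQ]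
      ring
    obtain ⟨q, e, he, hqe⟩ : ∃ q e : ℕ, e ≤ 1 ∧ a 3 = 2 * q + e :=
      ⟨a 3 / 2, a 3 % 2, by omega, by omega⟩
    refine ⟨Q * cc t ^ q * X 3 ^ e, ?_, ?_, ?_⟩
    · rw [nf_iff]
      have hX : ∀ (i : Fin 4) (n : ℕ), i ≠ 3 → degreeOf 3 (X i ^ n : MvPolynomial (Fin 4) k) = 0 :=
        fun i n hi => degreeOf_X_pow_of_ne n hi.symm
      have h1 : degreeOf 3 Q = 0 := by
        have e1 := degreeOf_C_mul_le (X 0 ^ a 0 * X 1 ^ a 1 * X 2 ^ a 2) (3 : Fin 4) c
        have e2 := degreeOf_mul_le (3 : Fin 4) (X 0 ^ a 0 * X 1 ^ a 1 : MvPolynomial (Fin 4) k)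
          (X 2 ^ a 2)
        have e3 := degreeOf_mul_le (3 : Fin 4) (X 0 ^ a 0 : MvPolynomial (Fin 4) k) (X 1 ^ a 1)
        rw [hX 0 _ (by decide), hX 1 _ (by decide)] at e3
        rw [hX 2 _ (by decide)] at e2
        rw [← hQ] at e1
        omega
      have h2 : degreeOf 3 (cc t ^ q) = 0 := by
        have := degreeOf_pow_le (3 : Fin 4) (cc t) q
        rw [cc_free, mul_zero] at this
        omega
      have h3 : degreeOf 3 (X 3 ^ e : MvPolynomial (Fin 4) k) ≤ e := by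
        have := degreeOf_pow_le (3 : Fin 4) (X 3 : MvPolynomial (Fin 4) k) e
        rw [degreeOf_X_self, mul_one] at this
        exact this
      have h4 := degreeOf_mul_le (3 : Fin 4) (Q * cc t ^ q) (X 3 ^ e)
      have h5 := degreeOf_mul_le (3 : Fin 4) Q (cc t ^ q)
      omega
    · have hw : (a 0 * 5 + a 1 * 6 + a 2 * 22 + a 3 * 33 : ℕ) ≤ m := by
        refine le_trans (le_of_eq ?_) ha
        rw [← msWt_eq]
        unfold U.msWt
        rw [Fin.sum_univ_four]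
        rfl
      have hX : ∀ (i : Fin 4) (n : ℕ),
          U.MsB wAff (X i ^ n : MvPolynomial (Fin 4) k) (n * wAff i) := fun i n =>
        U.MsB.X_pow wAff i n
      have h1 : U.MsB wAff Q (a 0 * 5 + a 1 * 6 + a 2 * 22) := by
        rw [hQ]
        have h2 := ((hX 0 (a 0)).mul (hX 1 (a 1))).mul (hX 2 (a 2))
        have h3 := (U.MsB.const wAff c).mul h2
        rw [zero_add] at h3
        exact h3
      have h2 : ∀ q : ℕ, U.MsB wAff (cc t ^ q) (q * 66) := by
        intro q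
        induction q with
        | zero =>
          rw [pow_zero, ← map_one C]
          exact (U.MsB.const wAff (1 : k)).mono (by norm_num)
        | succ q ih =>
          rw [pow_succ]
          refine (ih.mul (cc_deg t)).mono (le_of_eq ?_)
          push_cast
          ring
      refine ((h1.mul (h2 q)).mul (hX 3 e)).mono ?_
      rw [show ((wAff 3 : ℕ) : ℤ) = 33 from rfl]
      have hw' : ((a 0 * 5 + a 1 * 6 + a 2 * 22 + a 3 * 33 : ℕ) : ℤ) ≤ m := by exact_mod_cast hw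
      rw [hqe] at hw'
      push_cast at hw'
      linarith
    · have h1 : gAff t ∣ (X 3 ^ 2) ^ q - cc t ^ q := by
        refine dvd_trans ?_ (sub_dvd_pow_sub_pow _ _ q)
        rw [cc, sub_sub_cancel]
      obtain ⟨d, hd⟩ := h1
      refine ⟨Q * X 3 ^ e * d, ?_⟩
      rw [hmono, hqe, pow_add, pow_mul]
      linear_combination (Q * X 3 ^ e) * hd
  -- sums
  have hsum : ∀ S : Finset (Fin 4 →₀ ℕ), (∀ a ∈ S, Finsupp.weight wAff a ≤ m) →
      ∃ P', NF P' ∧ U.MsB wAff P' m ∧ gAff t ∣ (∑ a ∈ S, monomial a (coeff a P)) - P' := by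
    intro S
    induction S using Finset.induction_on with
    | empty =>
      intro _
      refine ⟨0, ?_, Or.inl rfl, ?_⟩
      · intro a ha
        simp at ha
      · rw [Finset.sum_empty, sub_zero]
        exact dvd_zero _
    | insert a S ha ih =>
      intro hS
      obtain ⟨P1, h1, h2, h3⟩ := ih fun b hb => hS b (Finset.mem_insert_of_mem hb)
      obtain ⟨P2, h4, h5, h6⟩ := hmon a (coeff a P) (hS a (Finset.mem_insert_self a S))
      refine ⟨P2 + P1, ?_, h5.add h2, ?_⟩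
      · rw [nf_iff] at h1 h4 ⊢
        exact (degreeOf_add_le _ _ _).trans (max_le h4 h1)
      · rw [Finset.sum_insert ha]
        have h7 := dvd_add h6 h3
        refine h7.trans (dvd_of_eq ?_)
        ring
  obtain ⟨P', h1, h2, h3⟩ := hsum P.support hP
  refine ⟨P', h1, msB_iff.1 h2, ?_⟩
  rwa [← MvPolynomial.as_sum P] at h3

theorem nf_unique (t : k) {P : MvPolynomial (Fin 4) k} (hP : NF P) (h : gAff t ∣ P) : P = 0 := by
  by_contra hne
  obtain ⟨Q, rfl⟩ := h
  have hQ : Q ≠ 0 := right_ne_zero_of_mul hne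
  have hg : gAff t ≠ 0 := left_ne_zero_of_mul hne
  rw [nf_iff, degreeOf_mul_eq hg hQ] at hP
  have h1 : 2 ≤ degreeOf 3 (gAff t) := by
    by_contra hcon
    have h2 : gAff t = X 3 ^ 2 - cc t := by
      rw [cc, sub_sub_cancel]
    have h3 : degreeOf 3 (X 3 ^ 2 : MvPolynomial (Fin 4) k) ≤ 1 := by
      have h4 : (X 3 ^ 2 : MvPolynomial (Fin 4) k) = gAff t + cc t := by
        rw [cc, add_sub_cancel]
      rw [h4]
      refine (degreeOf_add_le _ _ _).trans (max_le (by omega) ?_)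
      rw [cc_free]
      exact Nat.zero_le _
    rw [pow_two, degreeOf_mul_eq (X_ne_zero _) (X_ne_zero _), degreeOf_X_self] at h3
    omega
  omega

end M

/-- KEYM for normal forms -/
theorem keym_nf [CharZero k] {E : Type} [Field E] [Algebra k E] (D : LogVal k E) (t : k)
    (ht : Transcendental ℚ t) (a : Fin 4 → E) (hg : aeval a (gAff t) = 0)
    (hJ : (Matrix.of fun i j : Fin 3 => D.δ j (a i.castSucc)).det ≠ 0) {N : ℕ}
    (s : Fin (N + 1) → MvPolynomial (Fin 4) k) (m : ℕ) (hnf : ∀ i, NF (s i))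
    (hs : ∀ i, ∀ c ∈ (s i).support, Finsupp.weight wAff c ≤ m)
    (htop : ∃ i, ∃ c ∈ (s i).support, Finsupp.weight wAff c = m)
    (hcop : ∀ p : Raff t, (∀ i, p ∣ Ideal.Quotient.mk _ (s i)) → IsUnit p)
    (i₀ : Fin (N + 1)) (h₀ : aeval a (s i₀) ≠ 0)
    (hi₀ : ∀ i, aeval a (s i) ≠ 0 → D.v (aeval a (s i₀)) ≤ D.v (aeval a (s i))) :
    D.v (aeval a (s i₀)) ≤
      m * (D.v (Matrix.of fun i j : Fin 3 => D.δ j (a i.castSucc)).det - D.v (a 3) - 1) := by
  refine keym D t ht a hg hJ s m (fun i => M.wtd_le_iff.2 (hs i)) ?_ hcop i₀ h₀ hi₀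
  rintro hm ⟨s', hs'⟩
  obtain ⟨i, c, hc, hcm⟩ := htop
  obtain ⟨P, hP1, hP2, hP3⟩ := M.exists_nf_deg t (s' i) (M.wtd_le_iff.1 (hs' i).1)
  have h1 : gAff t ∣ s i - P := by
    have h2 := dvd_add (Ideal.mem_span_singleton.1 (hs' i).2) hP3
    refine h2.trans (dvd_of_eq ?_)
    ring
  have h3 : s i - P = 0 := by
    refine M.nf_unique t ?_ h1
    rw [M.nf_iff] at hP1 ⊢
    have h4 := hnf i
    rw [M.nf_iff] at h4
    rw [sub_eq_add_neg]
    refine (degreeOf_add_le _ _ _).trans (max_le h4 ?_)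
    rwa [degreeOf_neg]
  rw [sub_eq_zero.1 h3] at hc
  have h5 := hP2 c hc
  omega

/-- KEYM in the form used at the end -/
theorem keym_end [CharZero k] {E : Type} [Field E] [Algebra k E] (D : LogVal k E) (t : k)
    (ht : Transcendental ℚ t) (W : Fin 4 → E) (hg : aeval W (gAff t) = 0)
    (hJ : (Matrix.of fun i j : Fin 3 => D.δ j (W i.castSucc)).det ≠ 0) {N : ℕ}
    (s : Fin (N + 1) → MvPolynomial (Fin 4) k) (m : ℕ) (hnf : ∀ i, NF (s i))
    (hs : ∀ i, ∀ c ∈ (s i).support, Finsupp.weight wAff c ≤ m)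
    (htop : ∃ i, ∃ c ∈ (s i).support, Finsupp.weight wAff c = m)
    (hcop : ∀ p : Raff t, (∀ i, p ∣ Ideal.Quotient.mk _ (s i)) → IsUnit p)
    (j : Fin (N + 1)) (hj : aeval W (s j) ≠ 0) (f : Fin (N + 1) → E)
    (hf : ∀ i, f i = 0 ∨ 0 ≤ D.v (f i)) (hrel : ∀ i, aeval W (s i) = f i * aeval W (s j)) :
    D.v (aeval W (s j)) ≤
      m * (D.v (Matrix.of fun i j : Fin 3 => D.δ j (W i.castSucc)).det - D.v (W 3) - 1) := by
  refine keym_nf D t ht W hg hJ s m hnf hs htop hcop j hj fun i hi => ?_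
  have h1 : f i ≠ 0 := by
    intro h
    apply hi
    rw [hrel, h, zero_mul]
  rw [hrel i, D.mul _ _ h1 hj]
  have := (hf i).resolve_left h1
  omega

end Pool.Agent.KO
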