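import Pool.Agent.KO.M.Defs

/-!
# Project KO, block M (KEYM), row M4: homogenisation
-/

set_option autoImplicit false

namespace Pool.Agent.KO.M

open MvPolynomial

variable {k : Type} [Field k]

/-- The weight of a monomial in `z, u, w, x, y`. -/
theorem weight_cons (a : ℕ) (e : Fin 4 →₀ ℕ) :
    Finsupp.weight w5 (Finsupp.cons a e) = a + Finsupp.weight wAff e := by
  rw [Finsupp.weight_apply, Finsupp.weight_apply, Finsupp.sum_fintype _ _ (by simp),
    Finsupp.sum_fintype _ _ (by simp), Fin.sum_univ_succ]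
  have h0 : w5 0 = 1 := rfl
  have h1 : ∀ i : Fin 4, w5 i.succ = wAff i := by
    intro i
    fin_cases i <;> rfl
  simp [h0, h1]

/-- The dehomogenisation of a monomial. -/
theorem dehom_monomial (e : Fin 5 →₀ ℕ) (c : k) :
    dehom (monomial e c) = monomial (Finsupp.tail e) c := by
  rw [dehom, aeval_monomial, monomial_eq, Finsupp.prod_fintype _ _ (by simp),
    Finsupp.prod_fintype _ _ (by simp), Fin.prod_univ_succ]
  simp [algebraMap_eq, Finsupp.tail_apply]

/-- ROW M4: homogenisation -/
theorem exists_homog (s : MvPolynomial (Fin 4) k) (m : ℕ) (hs : weightedTotalDegree wAff s ≤ m) :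
    ∃ S : MvPolynomial (Fin 5) k, IsWeightedHomogeneous w5 S m ∧ dehom S = s := by
  refine ⟨∑ e ∈ s.support, monomial (Finsupp.cons (m - Finsupp.weight wAff e) e) (coeff e s),
    ?_, ?_⟩
  · refine IsWeightedHomogeneous.sum _ _ m fun e he => ?_
    refine isWeightedHomogeneous_monomial w5 _ _ ?_
    have h1 : Finsupp.weight wAff e ≤ m := (le_weightedTotalDegree wAff he).trans hs
    rw [weight_cons]
    omega
  · rw [map_sum]
    refine (Finset.sum_congr rfl fun e _ => ?_).trans s.as_sum.symm
    refine (dehom_monomial _ _).trans ?_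
    rw [Finsupp.tail_cons]

/-- ROW M4 -/
theorem dehom_degree {S : MvPolynomial (Fin 5) k} {m : ℕ} (hS : IsWeightedHomogeneous w5 S m) :
    weightedTotalDegree wAff (dehom S) ≤ m := by
  classical
  have h1 : dehom S = ∑ e ∈ S.support, monomial (Finsupp.tail e) (coeff e S) := by
    conv_lhs => rw [S.as_sum, map_sum]
    simp only [dehom_monomial]
  refine Finset.sup_le fun e' he' => ?_
  rw [h1] at he'
  obtain ⟨e, he, h2⟩ := Finset.mem_biUnion.1 (support_sum he')
  have h3 : e' = Finsupp.tail e := by
    have := support_monomial_subset h2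
    simpa using this
  have h4 : Finsupp.weight w5 e = m := hS (mem_support_iff.1 he)
  rw [← Finsupp.cons_tail e, weight_cons] at h4
  rw [h3]
  omega

/-- ROW M4 -/
theorem dehom_gH (t : k) : dehom (gH t) = gAff t := by
  have h1 : (4 : Fin 5) = Fin.succ 3 := rfl
  have h2 : (3 : Fin 5) = Fin.succ 2 := rfl
  have h3 : (2 : Fin 5) = Fin.succ 1 := rfl
  have h4 : (1 : Fin 5) = Fin.succ 0 := rfl
  have hz : dehom (X 0 : MvPolynomial (Fin 5) k) = 1 := by simp [dehom]
  have hs : ∀ i : Fin 4, dehom (X i.succ : MvPolynomial (Fin 5) k) = X i := by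
    intro i
    simp [dehom]
  have hC : dehom (C t : MvPolynomial (Fin 5) k) = C t := by simp [dehom, algebraMap_eq]
  rw [gH, gAff, h1, h2, h3, h4]
  simp only [map_add, map_sub, map_mul, map_pow, hz, hs, hC]
  ring

end Pool.Agent.KO.M
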