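import Pool.Agent.KO.M.Defs

/-!
# Project KO, block M: components of polynomials (row M3)
-/

set_option autoImplicit false

namespace Pool.Agent.KO.M

open MvPolynomial

variable {k : Type} [Field k]

private theorem cm_weight {m : ℕ} (w : Fin m → ℕ) (s : Fin m →₀ ℕ) :
    Finsupp.weight w s = U.msWt w s := by
  rw [Finsupp.weight_apply, Finsupp.sum_fintype]
  · rfl
  · intro i
    exact zero_smul _ _

/-- components of a polynomial -/
theorem isWH_coeff {m : ℕ} (w : Fin m → ℕ) (f : MvPolynomial (Fin m) k) (N : ℕ) :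
    IsWeightedHomogeneous w ((U.msPhi w f).coeff N) N := by
  intro s hs
  rw [U.ms_coeff] at hs
  rw [cm_weight]
  by_contra h
  rw [if_neg h] at hs
  exact hs rfl

theorem msPhi_homog {m : ℕ} (w : Fin m → ℕ) {f : MvPolynomial (Fin m) k} {d : ℕ}
    (hf : IsWeightedHomogeneous w f d) : U.msPhi w f = Polynomial.C f * Polynomial.X ^ d := by
  ext N s
  rw [U.ms_coeff, Polynomial.coeff_C_mul, Polynomial.coeff_X_pow, mul_ite, mul_one, mul_zero]
  by_cases h : coeff s f = 0
  · rw [h, ite_self]
    split_ifs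
    · exact h.symm
    · exact (coeff_zero s).symm
  · have h1 := hf h
    rw [cm_weight] at h1
    rw [h1]
    by_cases h2 : d = N
    · rw [if_pos h2, if_pos h2.symm]
    · rw [if_neg h2, if_neg (Ne.symm h2), coeff_zero]

theorem msPhi_rename {m n : ℕ} (w : Fin m → ℕ) (i : Fin n → Fin m) (f : MvPolynomial (Fin n) k)
    (N : ℕ) :
    (U.msPhi w (rename i f)).coeff N = rename i ((U.msPhi (fun j => w (i j)) f).coeff N) := by
  have h : (U.msPhi (k := k) w).comp (rename i) =
      (Polynomial.mapAlgHom (rename i)).comp (U.msPhi (k := k) (fun j => w (i j))) := by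
    refine MvPolynomial.algHom_ext fun j => ?_
    simp only [AlgHom.comp_apply, rename_X, U.msPhi, aeval_X, Polynomial.coe_mapAlgHom,
      Polynomial.map_mul, Polynomial.map_pow, Polynomial.map_C, Polynomial.map_X]
    rw [RingHom.coe_coe, rename_X]
  have h1 := DFunLike.congr_fun h f
  rw [AlgHom.comp_apply, AlgHom.comp_apply, Polynomial.coe_mapAlgHom] at h1
  rw [h1, Polynomial.coeff_map]
  rfl

private theorem cm_mon {E : Type} [Field E] [Algebra k E] (D : KPt k E) (s : Fin 5 →₀ ℕ) (a : k) :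
    D.ev (monomial s a) = 0 ∨
      (U.msWt w5 s : ℚ) * D.μ ≤ D.v (D.ev (monomial s a)) := by
  by_cases h : D.ev (monomial s a) = 0
  · exact Or.inl h
  right
  have e : D.ev (monomial s a) = algebraMap k E a * ∏ i, D.pt i ^ s i := by
    rw [KPt.ev, aeval_monomial, Finsupp.prod_fintype _ _ (fun _ => pow_zero _)]
  rw [e] at h ⊢
  have ha : a ≠ 0 := by
    rintro rfl
    rw [map_zero, zero_mul] at h
    exact h rfl
  have hp := right_ne_zero_of_mul h
  have hp' : ∀ i ∈ Finset.univ, D.pt i ^ s i ≠ 0 := Finset.prod_ne_zero_iff.1 hp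
  rw [D.const_mul ha, D.prod _ _ hp']
  push_cast
  rw [U.msWt]
  push_cast
  rw [Finset.sum_mul]
  refine Finset.sum_le_sum fun i _ => ?_
  by_cases hs : s i = 0
  · rw [hs, pow_zero, D.one]
    simp
  · have hi : D.pt i ≠ 0 := by
      intro h0
      exact hp' i (Finset.mem_univ i) (by rw [h0, zero_pow hs])
    rw [D.pow hi]
    push_cast
    rw [mul_assoc]
    exact mul_le_mul_of_nonneg_left (D.hμ i) (Nat.cast_nonneg _)

/-- the value of a homogeneous polynomial -/
theorem v_ev_ge {E : Type} [Field E] [Algebra k E] (D : KPt k E) {d : ℕ}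
    {P : MvPolynomial (Fin 5) k} (hP : IsWeightedHomogeneous w5 P d) :
    D.ev P = 0 ∨ (d : ℚ) * D.μ ≤ D.v (D.ev P) := by
  have h1 : D.ev P = ∑ s ∈ P.support, D.ev (monomial s (coeff s P)) := by
    conv_lhs => rw [P.as_sum]
    exact D.ev_sum _ _
  have h2 := D.sum_ge P.support (fun s => D.ev (monomial s (coeff s P))) ⌈(d : ℚ) * D.μ⌉ ?_
  · rw [← h1] at h2
    refine h2.imp id fun h => ?_
    exact Int.ceil_le.1 h
  · intro s hs
    have h3 := hP (MvPolynomial.mem_support_iff.1 hs)
    rw [cm_weight] at h3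
    refine (cm_mon D s (coeff s P)).imp id fun h => ?_
    rw [h3] at h
    exact Int.ceil_le.2 h

end Pool.Agent.KO.M
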