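import Pool.Agent.KO.Key.Defs
import Pool.Agent.KO.U.Defs
import Pool.Agent.KO.U.Deg

/-!
# Project KO, block M (KEYM): definitions
-/

set_option autoImplicit false

namespace Pool.Agent.KO.M

open MvPolynomial

variable {k : Type} [Field k]

/-- dehomogenisation: `z = 1` -/
noncomputable def dehom : MvPolynomial (Fin 5) k →ₐ[k] MvPolynomial (Fin 4) k :=
  aeval (Fin.cons 1 X : Fin 5 → MvPolynomial (Fin 4) k)

/-- the equation at `z = 0` -/
noncomputable def gBar (t : k) : MvPolynomial (Fin 4) k :=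
  X 3 ^ 2 + X 2 ^ 3 + C t * X 1 ^ 11 + X 0 ^ 12 * X 1

end Pool.Agent.KO.M
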