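import Pool.Agent.KO.M.Defs

/-!
# Project KO, block M, row M1: algebraic dependence
-/

set_option autoImplicit false

namespace Pool.Agent.KO.M

open MvPolynomial

variable {k : Type} [Field k]

/-- ROW M1 : algebraic dependence -/
theorem alg_dep {A : Type} [CommRing A] [IsDomain A] [Algebra k A] {n : ℕ} (x : Fin (n + 1) → A)
    (hgen : Algebra.adjoin k (Set.range x) = ⊤)
    (hint : IsIntegral (Algebra.adjoin k (Set.range fun i : Fin n => x i.castSucc)) (x (Fin.last n)))
    (w : Fin (n + 1) → A) : ∃ P : MvPolynomial (Fin (n + 1)) k, P ≠ 0 ∧ aeval w P = 0 := by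
  have hX : ∀ j, IsIntegral (Algebra.adjoin k (Set.range fun i : Fin n => x i.castSucc))
      (x j) := by
    intro j
    refine Fin.lastCases hint (fun i => ?_) j
    exact isIntegral_algebraMap
      (x := (⟨x i.castSucc, Algebra.subset_adjoin ⟨i, rfl⟩⟩ :
        Algebra.adjoin k (Set.range fun i : Fin n => x i.castSucc)))
  have hP : ∀ y : A, IsIntegral (Algebra.adjoin k (Set.range fun i : Fin n => x i.castSucc)) y := by
    intro y
    have hy : y ∈ Algebra.adjoin k (Set.range x) := by rw [hgen]; trivial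
    induction hy using Algebra.adjoin_induction with
    | mem z hz =>
      obtain ⟨j, rfl⟩ := hz
      exact hX j
    | algebraMap c =>
      exact isIntegral_algebraMap
        (x := algebraMap k (Algebra.adjoin k (Set.range fun i : Fin n => x i.castSucc)) c)
    | add p q _ _ hp hq => exact hp.add hq
    | mul p q _ _ hp hq => exact hp.mul hq
  have halg : Algebra.IsAlgebraic
      (Algebra.adjoin k (Set.range fun i : Fin n => x i.castSucc)) A :=
    ⟨fun y => (hP y).isAlgebraic⟩
  by_contra hcon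
  push Not at hcon
  have hw' : AlgebraicIndependent k w := by
    rw [algebraicIndependent_iff]
    intro p hp
    by_contra hp0
    exact hcon p hp0 hp
  have h1 := hw'.cardinalMk_le_trdeg
  have h2 : Algebra.trdeg k A ≤ Cardinal.mk (Set.range fun i : Fin n => x i.castSucc) := by
    exact Algebra.IsAlgebraic.trdeg_le_cardinalMk k _
  have h3 : Cardinal.mk (Set.range fun i : Fin n => x i.castSucc) ≤
      Cardinal.mk (Fin n) := Cardinal.mk_range_le
  have h4 := h1.trans (h2.trans h3)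
  rw [Cardinal.mk_fin, Cardinal.mk_fin, Nat.cast_le] at h4
  omega

theorem Dep_quot {m : ℕ} {I : Ideal (MvPolynomial (Fin m) k)} {B : Type} [CommRing B]
    [Algebra k B] (φ : (MvPolynomial (Fin m) k ⧸ I) →ₐ[k] B) (S : Subalgebra k B)
    (h : ∀ i, φ (Ideal.Quotient.mk I (X i)) ∈ S) (a : MvPolynomial (Fin m) k ⧸ I) : φ a ∈ S := by
  obtain ⟨P, rfl⟩ := Ideal.Quotient.mk_surjective a
  induction P using MvPolynomial.induction_on with
  | C c =>
    have h1 : φ (Ideal.Quotient.mk I (C c)) = algebraMap k B c := φ.commutes c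
    rw [h1]
    exact S.algebraMap_mem c
  | add p q hp hq =>
    rw [map_add, map_add]
    exact S.add_mem hp hq
  | mul_X p i hp =>
    rw [map_mul, map_mul]
    exact S.mul_mem hp (h i)

theorem Dep_int {A : Type} [CommRing A] [Algebra k A] (S : Subalgebra k A) (y c : A)
    (hc : c ∈ S) (h : y ^ 2 = c) : IsIntegral S y := by
  refine IsIntegral.of_pow (n := 2) (by norm_num) ?_
  rw [h]
  exact isIntegral_algebraMap (x := (⟨_, hc⟩ : S))

/-- ROW M1: five elements of `Raff t [T]` are dependent -/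
theorem dep_Raff (t : k) [IsDomain (Raff t)] (w : Fin 5 → Polynomial (Raff t)) :
    ∃ P : MvPolynomial (Fin 5) k, P ≠ 0 ∧ aeval w P = 0 := by
  set m : Fin 4 → Raff t := fun i => Ideal.Quotient.mk _ (X i) with hm
  have hrel : m 3 ^ 2 = -(m 2 ^ 3 + algebraMap k (Raff t) t * m 1 ^ 11 + m 0 * m 1 ^ 10
      + m 0 ^ 12 * m 1 - 1 - m 1 ^ 9) := by
    have h0 : (Ideal.Quotient.mk (Ideal.span {gAff t}) (gAff t) : Raff t) = 0 :=
      Ideal.Quotient.eq_zero_iff_mem.2 (Ideal.subset_span rfl)
    have h1 : (Ideal.Quotient.mk (Ideal.span {gAff t}) (gAff t) : Raff t) =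
        m 3 ^ 2 + m 2 ^ 3 + algebraMap k (Raff t) t * m 1 ^ 11 + m 0 * m 1 ^ 10
          + m 0 ^ 12 * m 1 - 1 - m 1 ^ 9 := by
      unfold gAff
      simp only [map_add, map_sub, map_mul, map_pow, map_one]
      rfl
    linear_combination h0 - h1
  set x : Fin 5 → Polynomial (Raff t) :=
    ![Polynomial.X, Polynomial.C (m 0), Polynomial.C (m 1), Polynomial.C (m 2),
      Polynomial.C (m 3)] with hx
  have hgen : Algebra.adjoin k (Set.range x) = ⊤ := by
    rw [eq_top_iff]
    intro p _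
    have hX : Polynomial.X ∈ Algebra.adjoin k (Set.range x) := Algebra.subset_adjoin ⟨0, rfl⟩
    have hC : ∀ a : Raff t, Polynomial.C a ∈ Algebra.adjoin k (Set.range x) := by
      intro a
      refine Dep_quot (Algebra.ofId (Raff t) (Polynomial (Raff t)) |>.restrictScalars k)
        (Algebra.adjoin k (Set.range x)) (fun i => ?_) a
      apply Algebra.subset_adjoin
      fin_cases i
      · exact ⟨1, rfl⟩
      · exact ⟨2, rfl⟩
      · exact ⟨3, rfl⟩
      · exact ⟨4, rfl⟩
    induction p using Polynomial.induction_on with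
    | C a => exact hC a
    | add p q hp hq => exact add_mem (hp trivial) (hq trivial)
    | monomial n a _ => exact mul_mem (hC a) (pow_mem hX _)
  refine alg_dep x hgen ?_ w
  set S := Algebra.adjoin k (Set.range fun i : Fin 4 => x i.castSucc) with hS
  have h0 : Polynomial.C (m 0) ∈ S := Algebra.subset_adjoin ⟨1, rfl⟩
  have h1 : Polynomial.C (m 1) ∈ S := Algebra.subset_adjoin ⟨2, rfl⟩
  have h2 : Polynomial.C (m 2) ∈ S := Algebra.subset_adjoin ⟨3, rfl⟩
  have ht : Polynomial.C (algebraMap k (Raff t) t) ∈ S := S.algebraMap_mem t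
  have hc : -(Polynomial.C (m 2) ^ 3
      + Polynomial.C (algebraMap k (Raff t) t) * Polynomial.C (m 1) ^ 11
      + Polynomial.C (m 0) * Polynomial.C (m 1) ^ 10
      + Polynomial.C (m 0) ^ 12 * Polynomial.C (m 1) - 1 - Polynomial.C (m 1) ^ 9) ∈ S :=
    neg_mem (sub_mem (sub_mem (add_mem (add_mem (add_mem (pow_mem h2 _)
      (mul_mem ht (pow_mem h1 _))) (mul_mem h0 (pow_mem h1 _))) (mul_mem (pow_mem h0 _) h1))
      (one_mem _)) (pow_mem h1 _))
  have hr : x (Fin.last 4) ^ 2 = -(Polynomial.C (m 2) ^ 3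
      + Polynomial.C (algebraMap k (Raff t) t) * Polynomial.C (m 1) ^ 11
      + Polynomial.C (m 0) * Polynomial.C (m 1) ^ 10
      + Polynomial.C (m 0) ^ 12 * Polynomial.C (m 1) - 1 - Polynomial.C (m 1) ^ 9) := by
    have h3 : x (Fin.last 4) = Polynomial.C (m 3) := rfl
    rw [h3, ← Polynomial.C_pow, hrel]
    simp only [Polynomial.C_neg, Polynomial.C_add, Polynomial.C_sub, Polynomial.C_mul,
      Polynomial.C_pow, Polynomial.C_1]
  exact Dep_int (A := Polynomial (Raff t)) S (x (Fin.last 4)) _ hc hr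

/-- ROW M1: four elements of the ring at `z = 0` are dependent -/
theorem dep_Bar (t : k) [IsDomain (MvPolynomial (Fin 4) k ⧸ Ideal.span {gBar t})]
    (w : Fin 4 → MvPolynomial (Fin 4) k ⧸ Ideal.span {gBar t}) :
    ∃ P : MvPolynomial (Fin 4) k, P ≠ 0 ∧ aeval w P = 0 := by
  set m : Fin 4 → MvPolynomial (Fin 4) k ⧸ Ideal.span {gBar t} :=
    fun i => Ideal.Quotient.mk _ (X i) with hm
  have hrel : m 3 ^ 2 = -(m 2 ^ 3
      + algebraMap k (MvPolynomial (Fin 4) k ⧸ Ideal.span {gBar t}) t * m 1 ^ 11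
      + m 0 ^ 12 * m 1) := by
    have h0 : (Ideal.Quotient.mk (Ideal.span {gBar t}) (gBar t) :
        MvPolynomial (Fin 4) k ⧸ Ideal.span {gBar t}) = 0 :=
      Ideal.Quotient.eq_zero_iff_mem.2 (Ideal.subset_span rfl)
    have h1 : (Ideal.Quotient.mk (Ideal.span {gBar t}) (gBar t) :
        MvPolynomial (Fin 4) k ⧸ Ideal.span {gBar t}) =
        m 3 ^ 2 + m 2 ^ 3 + algebraMap k (MvPolynomial (Fin 4) k ⧸ Ideal.span {gBar t}) t
          * m 1 ^ 11 + m 0 ^ 12 * m 1 := by
      unfold gBar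
      simp only [map_add, map_mul, map_pow]
      rfl
    linear_combination h0 - h1
  have hgen : Algebra.adjoin k (Set.range m) = ⊤ := by
    rw [eq_top_iff]
    intro p _
    exact Dep_quot (AlgHom.id k _) (Algebra.adjoin k (Set.range m))
      (fun i => Algebra.subset_adjoin ⟨i, rfl⟩) p
  refine alg_dep m hgen ?_ w
  set S := Algebra.adjoin k (Set.range fun i : Fin 3 => m i.castSucc) with hS
  have h0 : m 0 ∈ S := Algebra.subset_adjoin ⟨0, rfl⟩
  have h1 : m 1 ∈ S := Algebra.subset_adjoin ⟨1, rfl⟩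
  have h2 : m 2 ∈ S := Algebra.subset_adjoin ⟨2, rfl⟩
  have hc : -(m 2 ^ 3 + algebraMap k (MvPolynomial (Fin 4) k ⧸ Ideal.span {gBar t}) t * m 1 ^ 11
      + m 0 ^ 12 * m 1) ∈ S :=
    neg_mem (add_mem (add_mem (pow_mem h2 _) (mul_mem (S.algebraMap_mem t) (pow_mem h1 _)))
      (mul_mem (pow_mem h0 _) h1))
  have hr : m (Fin.last 3) ^ 2 = -(m 2 ^ 3
      + algebraMap k (MvPolynomial (Fin 4) k ⧸ Ideal.span {gBar t}) t * m 1 ^ 11
      + m 0 ^ 12 * m 1) := hrel
  exact Dep_int S _ _ hc hr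

end Pool.Agent.KO.M
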