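import Mathlib

/-!
# Project KO, block M (KEYM), row M2: elimination over a field
-/

set_option autoImplicit false

namespace Pool.Agent.KO.M

open MvPolynomial

variable {k : Type} [Field k]

private theorem elim_cons {A : Type} [CommRing A] [Algebra k A] {n : ℕ} (t : A) (v : Fin n → A)
    (P : MvPolynomial (Fin (n + 1)) k) :
    aeval (Fin.cons t v : Fin (n + 1) → A) P =
      Polynomial.eval₂ (aeval v : MvPolynomial (Fin n) k →ₐ[k] A).toRingHom t
        (finSuccEquiv k n P) := by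
  induction P using MvPolynomial.induction_on with
  | C c =>
    rw [← algebraMap_eq, AlgHom.commutes, AlgEquiv.commutes, Polynomial.algebraMap_apply,
      Polynomial.eval₂_C]
    exact ((aeval v : MvPolynomial (Fin n) k →ₐ[k] A).commutes c).symm
  | add p q hp hq => rw [map_add, map_add, Polynomial.eval₂_add, hp, hq]
  | mul_X p i hp =>
    rw [map_mul, map_mul, Polynomial.eval₂_mul, hp, aeval_X]
    congr 1
    refine Fin.cases ?_ (fun j => ?_) i
    · rw [finSuccEquiv_X_zero, Polynomial.eval₂_X, Fin.cons_zero]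
    · rw [finSuccEquiv_X_succ, Polynomial.eval₂_C, Fin.cons_succ]
      simp

private theorem elim_step {A B : Type} [CommRing A] [CommRing B] [IsDomain B]
    (g : B →+* A) (t : A) (f : Polynomial B) (hf : f ≠ 0) :
    ∃ (b : ℕ) (S : B) (y : A), S ≠ 0 ∧ Polynomial.eval₂ g t f = t ^ b * (g S + t * y) := by
  obtain ⟨q, hq, hdvd⟩ := Polynomial.exists_eq_pow_rootMultiplicity_mul_and_not_dvd f hf 0
  rw [map_zero, sub_zero] at hq hdvd
  refine ⟨f.rootMultiplicity 0, q.coeff 0, Polynomial.eval₂ g t q.divX, ?_, ?_⟩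
  · intro h0
    exact hdvd (Polynomial.X_dvd_iff.2 h0)
  · have h1 : Polynomial.eval₂ g t f = t ^ f.rootMultiplicity 0 * Polynomial.eval₂ g t q := by
      conv_lhs => rw [hq]
      rw [Polynomial.eval₂_mul, Polynomial.eval₂_pow, Polynomial.eval₂_X]
    rw [h1]
    congr 1
    conv_lhs => rw [← Polynomial.divX_mul_X_add q]
    rw [Polynomial.eval₂_add, Polynomial.eval₂_mul, Polynomial.eval₂_X, Polynomial.eval₂_C]
    ring

/-- ROW M2 : elimination, two elements -/
theorem elim2 {A : Type} [CommRing A] [IsDomain A] [Algebra k A] (π h : A) (hπ : Prime π)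
    (hh : ¬ π ∣ h) {m : ℕ} (w : Fin m → A) (P : MvPolynomial (Fin (m + 2)) k) (hP : P ≠ 0)
    (h0 : aeval (Fin.cons π (Fin.cons h w : Fin (m + 1) → A) : Fin (m + 2) → A) P = 0) :
    ∃ R : MvPolynomial (Fin m) k, R ≠ 0 ∧ ∃ x y : A, aeval w R = x * π + y * h := by
  rw [elim_cons] at h0
  have hP' : finSuccEquiv k (m + 1) P ≠ 0 := by
    rwa [Ne, EmbeddingLike.map_eq_zero_iff]
  obtain ⟨b, S, y, hS, h1⟩ := elim_step
    (aeval (Fin.cons h w : Fin (m + 1) → A) : MvPolynomial (Fin (m + 1)) k →ₐ[k] A).toRingHom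
    π _ hP'
  rw [h1] at h0
  have h2 := (mul_eq_zero.1 h0).resolve_left (pow_ne_zero _ hπ.ne_zero)
  have h3 : aeval (Fin.cons h w : Fin (m + 1) → A) S = -(π * y) := eq_neg_of_add_eq_zero_left h2
  rw [elim_cons] at h3
  have hS' : finSuccEquiv k m S ≠ 0 := by
    rwa [Ne, EmbeddingLike.map_eq_zero_iff]
  obtain ⟨c, R, z, hR, h4⟩ := elim_step
    (aeval w : MvPolynomial (Fin m) k →ₐ[k] A).toRingHom h _ hS'
  rw [h4] at h3
  have h5 : π ∣ h ^ c * (aeval w R + h * z) := by
    refine ⟨-y, ?_⟩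
    rw [mul_neg]
    exact h3
  obtain ⟨x, hx⟩ := (hπ.dvd_or_dvd h5).resolve_left fun hd => hh (hπ.dvd_of_dvd_pow hd)
  exact ⟨R, hR, x, -z, by linear_combination hx⟩

/-- ROW M2 : elimination, one element -/
theorem elim1 {A : Type} [CommRing A] [IsDomain A] [Algebra k A] (h : A) (hh : h ≠ 0) {m : ℕ}
    (w : Fin m → A) (P : MvPolynomial (Fin (m + 1)) k) (hP : P ≠ 0)
    (h0 : aeval (Fin.cons h w : Fin (m + 1) → A) P = 0) :
    ∃ R : MvPolynomial (Fin m) k, R ≠ 0 ∧ ∃ y : A, aeval w R = y * h := by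
  rw [elim_cons] at h0
  have hP' : finSuccEquiv k m P ≠ 0 := by
    rwa [Ne, EmbeddingLike.map_eq_zero_iff]
  obtain ⟨b, R, y, hR, h1⟩ := elim_step
    (aeval w : MvPolynomial (Fin m) k →ₐ[k] A).toRingHom h _ hP'
  rw [h1] at h0
  have h2 := (mul_eq_zero.1 h0).resolve_left (pow_ne_zero _ hh)
  have h3 : aeval w R = -(h * y) := eq_neg_of_add_eq_zero_left h2
  exact ⟨R, hR, -y, by rw [h3]; ring⟩

end Pool.Agent.KO.M
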