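import Pool.Agent.KO.M.Defs

/-!
# Project KO, block M (KEYM), row M5: homogeneous elements of the ideal `(X 0, gH)`
-/

set_option autoImplicit false

namespace Pool.Agent.KO.M

open MvPolynomial

variable {k : Type} [Field k]

theorem m5_weight {m : ℕ} (w : Fin m → ℕ) (s : Fin m →₀ ℕ) :
    Finsupp.weight w s = U.msWt w s := by
  unfold U.msWt
  rw [Finsupp.weight_apply, Finsupp.sum_fintype]
  · simp only [smul_eq_mul]
  · intro i
    simp

theorem m5_coeff {m : ℕ} (w : Fin m → ℕ) (f : MvPolynomial (Fin m) k) (N : ℕ) :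
    IsWeightedHomogeneous w ((U.msPhi w f).coeff N) N := by
  intro s hs
  rw [U.ms_coeff] at hs
  rw [m5_weight]
  by_contra h
  rw [if_neg h] at hs
  exact hs rfl

theorem m5_homog {m : ℕ} (w : Fin m → ℕ) {f : MvPolynomial (Fin m) k} {d : ℕ}
    (hf : IsWeightedHomogeneous w f d) : U.msPhi w f = Polynomial.C f * Polynomial.X ^ d := by
  ext N s
  rw [U.ms_coeff, Polynomial.coeff_C_mul, Polynomial.coeff_X_pow, mul_ite, mul_one, mul_zero]
  by_cases h0 : coeff s f = 0
  · rw [h0, ite_self]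
    split_ifs
    · rw [h0]
    · rw [coeff_zero]
  · have h1 := hf h0
    rw [m5_weight] at h1
    rw [h1]
    by_cases h2 : N = d
    · rw [if_pos h2, if_pos h2.symm]
    · rw [if_neg h2, if_neg (Ne.symm h2), coeff_zero]

/-- ROW M5: a homogeneous element of the ideal `(X 0, gH)` -/
theorem exists_lower (t : k) {S : MvPolynomial (Fin 5) k} {m : ℕ}
    (hS : IsWeightedHomogeneous w5 S m) (hS0 : S ≠ 0) {a b : MvPolynomial (Fin 5) k}
    (h : S = X 0 * a + gH t * b) : 0 < m ∧ ∃ a' b' : MvPolynomial (Fin 5) k,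
      IsWeightedHomogeneous w5 a' (m - 1) ∧ S = X 0 * a' + gH t * b' := by
  have h1 := congrArg (U.msPhi w5) h
  rw [map_add, map_mul, map_mul, m5_homog w5 hS, m5_homog w5 (isWH_gH t),
    m5_homog w5 (isWeightedHomogeneous_X k w5 0)] at h1
  have hw : w5 0 = 1 := rfl
  rw [hw] at h1
  have h2 := congrArg (fun P => Polynomial.coeff P m) h1
  simp only [Polynomial.coeff_add] at h2
  rw [Polynomial.coeff_C_mul, Polynomial.coeff_X_pow, if_pos rfl, mul_one, mul_assoc, mul_assoc,
    Polynomial.coeff_C_mul, Polynomial.coeff_C_mul, Polynomial.coeff_X_pow_mul',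
    Polynomial.coeff_X_pow_mul'] at h2
  have hm : 0 < m := by
    by_contra hm
    have hm0 : m = 0 := by omega
    subst hm0
    rw [if_neg (by omega), if_neg (by omega), mul_zero, mul_zero, add_zero] at h2
    exact hS0 h2
  refine ⟨hm, (U.msPhi w5 a).coeff (m - 1),
    if 66 ≤ m then (U.msPhi w5 b).coeff (m - 66) else 0, m5_coeff w5 a (m - 1), ?_⟩
  rw [if_pos (by omega : 1 ≤ m)] at h2
  exact h2

end Pool.Agent.KO.M
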