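import Pool.Agent.KO.M.Homog
import Pool.Agent.KO.M.Lower
import Pool.Agent.KO.U.Ufd
import Pool.Agent.KO.Key.Key

/-!
# Project KO, block M: `keym`, the only fact on valuations used at the end
-/

set_option autoImplicit false

namespace Pool.Agent.KO

open MvPolynomial

variable {k : Type} [Field k]

theorem M.aeval_dehom {E : Type} [Field E] [Algebra k E] (pt : Fin 5 → E) (h0 : pt 0 = 1)
    (S : MvPolynomial (Fin 5) k) :
    aeval (fun l : Fin 4 => pt l.succ) (M.dehom S) = aeval pt S := by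
  have h : (aeval (fun l : Fin 4 => pt l.succ) : MvPolynomial (Fin 4) k →ₐ[k] E).comp M.dehom =
      aeval pt := by
    apply MvPolynomial.algHom_ext
    intro i
    rw [AlgHom.comp_apply]
    unfold M.dehom
    rw [aeval_X, aeval_X]
    refine Fin.cases ?_ (fun l => ?_) i
    · rw [Fin.cons_zero, map_one, h0]
    · rw [Fin.cons_succ, aeval_X]
  rw [← h]
  rfl

/-- the point of the cone given by affine coordinates -/
theorem M.exists_KPt {E : Type} [Field E] [Algebra k E] (D : LogVal k E) (t : k) (a : Fin 4 → E)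
    (hg : aeval a (gAff t) = 0)
    (hJ : (Matrix.of fun i j : Fin 3 => D.δ j (a i.castSucc)).det ≠ 0) :
    ∃ D' : KPt k E, D'.toLogVal = D ∧ D'.t = t ∧ D'.pt = (Fin.cons 1 a : Fin 5 → E) := by
  classical
  set pt : Fin 5 → E := Fin.cons 1 a with hpt
  have hw : ∀ i : Fin 5, (0 : ℚ) < w5 i := by
    intro i
    fin_cases i <;> norm_num [w5]
  obtain ⟨i₀, -, hi₀⟩ := Finset.exists_min_image (Finset.univ : Finset (Fin 5))
    (fun i => (D.v (pt i) : ℚ) / w5 i) Finset.univ_nonempty
  refine ⟨{ D with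
    t := t
    pt := pt
    pt0 := rfl
    on := ?_
    jac := hJ
    μ := (D.v (pt i₀) : ℚ) / w5 i₀
    hμ := ?_
    hμ1 := ?_ }, rfl, rfl, rfl⟩
  · rw [← M.aeval_dehom pt rfl, M.dehom_gH]
    exact hg
  · intro i
    have h1 := hi₀ i (Finset.mem_univ i)
    rw [le_div_iff₀ (hw i)] at h1
    linarith
  · exact ⟨i₀, by rw [mul_div_cancel₀ _ (hw i₀).ne']⟩

/-- KEYM, the only fact on valuations used at the end -/
theorem keym [CharZero k] {E : Type} [Field E] [Algebra k E] (D : LogVal k E) (t : k)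
    (ht : Transcendental ℚ t) (a : Fin 4 → E) (hg : aeval a (gAff t) = 0)
    (hJ : (Matrix.of fun i j : Fin 3 => D.δ j (a i.castSucc)).det ≠ 0) {N : ℕ}
    (s : Fin (N + 1) → MvPolynomial (Fin 4) k) (m : ℕ)
    (hs : ∀ i, weightedTotalDegree wAff (s i) ≤ m)
    (hmin : 0 < m → ¬ ∃ s' : Fin (N + 1) → MvPolynomial (Fin 4) k,
      ∀ i, weightedTotalDegree wAff (s' i) ≤ m - 1 ∧ s i - s' i ∈ Ideal.span {gAff t})
    (hcop : ∀ p : Raff t, (∀ i, p ∣ Ideal.Quotient.mk _ (s i)) → IsUnit p)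
    (i₀ : Fin (N + 1)) (h₀ : aeval a (s i₀) ≠ 0)
    (hi₀ : ∀ i, aeval a (s i) ≠ 0 → D.v (aeval a (s i₀)) ≤ D.v (aeval a (s i))) :
    D.v (aeval a (s i₀)) ≤
      m * (D.v (Matrix.of fun i j : Fin 3 => D.δ j (a i.castSucc)).det - D.v (a 3) - 1) := by
  obtain ⟨P, rfl, rfl, hpt⟩ := M.exists_KPt D t a hg hJ
  have hdom : IsDomain (Raff P.t) := isDomain_Raff P.t
  have hufd : UniqueFactorizationMonoid (Raff P.t) := ufd_Raff P.t
  have htZ : Transcendental ℤ P.t := by
    intro h
    refine ht ?_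
    obtain ⟨q, hq, hq0⟩ := h
    refine ⟨q.map (Int.castRingHom ℚ), ?_, ?_⟩
    · rwa [Ne, Polynomial.map_eq_zero_iff (Int.castRingHom ℚ).injective_int]
    · rw [show Int.castRingHom ℚ = algebraMap ℤ ℚ from rfl, Polynomial.aeval_map_algebraMap]
      exact hq0
  have hpa : (fun l : Fin 4 => P.pt l.succ) = a := by
    rw [hpt]
    funext l
    rw [Fin.cons_succ]
  have hLam : P.Lam = P.v (Matrix.of fun i j : Fin 3 => P.δ j (a i.castSucc)).det - P.v (a 3) := by
    unfold KPt.Lam
    rw [hpt]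
    rfl
  choose S hS hSs using fun i => M.exists_homog (s i) m (hs i)
  have hev : ∀ i, P.ev (S i) = aeval a (s i) := by
    intro i
    unfold KPt.ev
    rw [← M.aeval_dehom P.pt P.pt0, hSs, hpa]
  have hndvd : ∀ i, ¬ gAff P.t ∣ s i → aeval a (s i) ≠ 0 := by
    intro i hi
    rw [← hev i]
    refine P.ev_ne (hS i) fun h => hi ?_
    have h1 := map_dvd (M.dehom (k := k)) h
    rwa [M.dehom_gH, hSs] at h1
  have hμ0 : P.μ ≤ 0 := by
    have h1 := P.hμ 0
    rw [P.pt0, P.one] at h1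
    have h2 : w5 0 = 1 := rfl
    rw [h2] at h1
    simpa using h1
  rw [← hLam]
  rcases P.key htZ with h | ⟨hA, h⟩ | ⟨hA, hμ, π, hπ, h⟩
  · -- not principal
    have h1 := h m (S i₀) (hS i₀) fun hd => by
      obtain ⟨c, hc⟩ := hd
      apply h₀
      rw [← hev, hc, P.ev_mul, P.ev_gH, zero_mul]
    unfold KPt.vh KPt.A at h1
    rw [hev] at h1
    have h2 : (P.v (aeval a (s i₀)) : ℚ) ≤ m * (P.Lam - 1) := by
      push_cast at h1 ⊢
      linarith
    exact_mod_cast h2
  · -- the centre is `z = 0`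
    obtain ⟨j, hj⟩ : ∃ j, ¬ ∃ a b, S j = X 0 * a + gH P.t * b := by
      by_contra hcon
      push Not at hcon
      have hne : S i₀ ≠ 0 := by
        intro h0
        apply h₀
        rw [← hev, h0, P.ev_zero]
      obtain ⟨c, d, hcd⟩ := hcon i₀
      have hm := (M.exists_lower P.t (hS i₀) hne hcd).1
      refine hmin hm ?_
      have hex : ∀ i, ∃ a' b' : MvPolynomial (Fin 5) k, IsWeightedHomogeneous w5 a' (m - 1) ∧
          S i = X 0 * a' + gH P.t * b' := by
        intro i
        by_cases h0 : S i = 0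
        · refine ⟨0, 0, isWeightedHomogeneous_zero _ _ _, ?_⟩
          rw [h0, mul_zero, mul_zero, add_zero]
        · obtain ⟨c, d, hcd⟩ := hcon i
          exact (M.exists_lower P.t (hS i) h0 hcd).2
      choose a' b' ha' hab using hex
      refine ⟨fun i => M.dehom (a' i), fun i => ⟨M.dehom_degree (ha' i), ?_⟩⟩
      rw [Ideal.mem_span_singleton]
      refine ⟨M.dehom (b' i), ?_⟩
      have h1 := congrArg (M.dehom (k := k)) (hab i)
      rw [map_add, map_mul, map_mul, M.dehom_gH, hSs] at h1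
      have h2 : M.dehom (X 0 : MvPolynomial (Fin 5) k) = 1 := by
        unfold M.dehom
        rw [aeval_X, Fin.cons_zero]
      rw [h2, one_mul] at h1
      rw [h1]
      ring
    have h1 : P.vh m (S j) ≤ 0 := by
      by_contra hcon
      obtain ⟨P', b, hb⟩ := h m (S j) (hS j) (not_le.1 hcon)
      exact hj ⟨P', b, by linear_combination hb⟩
    have h2 : aeval a (s j) ≠ 0 := by
      rw [← hev j]
      refine P.ev_ne (hS j) fun ⟨b, hb⟩ => hj ⟨0, b, ?_⟩
      rw [hb]
      ring
    have h3 := hi₀ j h2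
    unfold KPt.vh at h1
    rw [hev] at h1
    unfold KPt.A at hA
    have h4 : (P.v (aeval a (s i₀)) : ℚ) ≤ m * (P.Lam - 1) := by
      have h5 : (P.v (aeval a (s i₀)) : ℚ) ≤ P.v (aeval a (s j)) := by exact_mod_cast h3
      have h6 : (m : ℚ) * P.μ ≤ m * (P.Lam - 1) :=
        mul_le_mul_of_nonneg_left (by linarith) (Nat.cast_nonneg m)
      linarith
    exact_mod_cast h4
  · -- the centre is principal in the chart `z ≠ 0`
    obtain ⟨j, hj⟩ : ∃ j, ¬ π ∣ Ideal.Quotient.mk _ (s j) := by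
      by_contra hcon
      push Not at hcon
      exact hπ (hcop π hcon)
    have h1 : P.v (aeval a (s j)) ≤ 0 := by
      by_contra hcon
      refine hj (h (s j) ?_)
      unfold KPt.eva
      rw [hpa]
      exact not_le.1 hcon
    have h2 : aeval a (s j) ≠ 0 := by
      refine hndvd j fun hd => hj ?_
      have h3 : (Ideal.Quotient.mk (Ideal.span {gAff P.t})) (s j) = 0 := by
        rw [Ideal.Quotient.eq_zero_iff_mem, Ideal.mem_span_singleton]
        exact hd
      rw [h3]
      exact dvd_zero _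
    have h3 := hi₀ j h2
    unfold KPt.A at hA
    rw [hμ] at hA
    have h4 : (P.v (aeval a (s i₀)) : ℚ) ≤ m * (P.Lam - 1) := by
      have h5 : (P.v (aeval a (s i₀)) : ℚ) ≤ P.v (aeval a (s j)) := by exact_mod_cast h3
      have h6 : (P.v (aeval a (s j)) : ℚ) ≤ 0 := by exact_mod_cast h1
      have h7 : (0 : ℚ) ≤ m * (P.Lam - 1) :=
        mul_nonneg (Nat.cast_nonneg m) (by linarith)
      linarith
    exact_mod_cast h4

end Pool.Agent.KO
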