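import Pool.Agent.KO.M.Defs

/-!
# Project KO, block M, row M6: the equation at `z = 0` is prime (helper79)
-/

set_option autoImplicit false

namespace Pool.Agent.KO.M

open MvPolynomial

variable {k : Type} [Field k]

private theorem pb_equiv (t : k) : finSuccEquiv k 3 (renameEquiv k (Equiv.swap (0 : Fin 4) 3)
    (gBar t)) = Polynomial.X ^ 2 + Polynomial.C (X 1 ^ 3 + C t * X 0 ^ 11 + X 2 ^ 12 * X 0) := by
  have e3 : Equiv.swap (0 : Fin 4) 3 3 = 0 := Equiv.swap_apply_right _ _
  have e0 : Equiv.swap (0 : Fin 4) 3 0 = Fin.succ 2 := Equiv.swap_apply_left _ _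
  have e1 : Equiv.swap (0 : Fin 4) 3 1 = Fin.succ 0 :=
    Equiv.swap_apply_of_ne_of_ne (by decide) (by decide)
  have e2 : Equiv.swap (0 : Fin 4) 3 2 = Fin.succ 1 :=
    Equiv.swap_apply_of_ne_of_ne (by decide) (by decide)
  have hC : finSuccEquiv k 3 (C t) = Polynomial.C (C t) := by
    rw [← MvPolynomial.algebraMap_eq, AlgEquiv.commutes]
    rfl
  unfold gBar
  rw [renameEquiv_apply]
  simp only [map_add, map_mul, map_pow, rename_X, rename_C, e0, e1, e2, e3,
    finSuccEquiv_X_zero, finSuccEquiv_X_succ, hC]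
  ring

theorem prime_gBar [CharZero k] (t : k) : Prime (gBar t) := by
  apply Irreducible.prime
  rw [← MulEquiv.irreducible_iff (renameEquiv k (Equiv.swap (0 : Fin 4) 3)),
    ← MulEquiv.irreducible_iff (finSuccEquiv k 3), pb_equiv]
  obtain ⟨c, hc⟩ : ∃ c : MvPolynomial (Fin 3) k, c = X 1 ^ 3 + C t * X 0 ^ 11 + X 2 ^ 12 * X 0 :=
    ⟨_, rfl⟩
  rw [← hc]
  have hm : (Polynomial.X ^ 2 + Polynomial.C c).Monic := Polynomial.monic_X_pow_add_C _ (by norm_num)
  have hd : (Polynomial.X ^ 2 + Polynomial.C c).natDegree = 2 := Polynomial.natDegree_X_pow_add_C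
  rw [hm.irreducible_iff_roots_eq_zero_of_degree_le_three (by rw [hd]) (by rw [hd]; norm_num)]
  rw [Multiset.eq_zero_iff_forall_notMem]
  intro r hr
  have h3 := (Polynomial.mem_roots hm.ne_zero).mp hr
  rw [Polynomial.IsRoot.def] at h3
  simp only [Polynomial.eval_add, Polynomial.eval_pow, Polynomial.eval_X, Polynomial.eval_C] at h3
  have h4 := congrArg (aeval (![0, Polynomial.X, 0] : Fin 3 → Polynomial k)) h3
  rw [map_add, map_pow, map_zero] at h4
  have h5 : aeval (![0, Polynomial.X, 0] : Fin 3 → Polynomial k) c = Polynomial.X ^ 3 := by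
    rw [hc]
    simp
  rw [h5] at h4
  have h6 := congrArg Polynomial.natDegree (eq_neg_of_add_eq_zero_left h4)
  rw [Polynomial.natDegree_pow, Polynomial.natDegree_neg, Polynomial.natDegree_X_pow] at h6
  omega

end Pool.Agent.KO.M
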